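import Pool.Agent.FC640.LS.Main

/-!
# Short periodic geodesics of all left-invariant metrics on `S³` and on `S³ × S³`

`A k = ℍ^k`, `IsPt`: the points of `(S³)^k`; `metric B`: the left-invariant metric on `(S³)^k`
whose value at the identity is the inner product on `(Im ℍ)^k = (ℝ³)^k` with matrix `B`;
`IsGeodesic`: smooth curves which are critical for the energy under all smooth variations with
fixed endpoints; `vol B = (2 π²)^k √(det B)`.
-/

open Real Matrix

namespace Pool.Agent.Results.MP_3eff7f_gt.LeftInvariantProducts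

open Pool.Agent.FC640.LS

/-- Every left-invariant metric on `S³ × S³` has a unit speed periodic geodesic of period `T` with
`T⁶ ≤ 128 π² vol`, and every left-invariant metric on `S³` has one with `T³ ≤ 4 π vol`. -/
theorem result :
    (∀ B : Matrix (Fin 2 × Fin 3) (Fin 2 × Fin 3) ℝ, B.PosDef →
      ∃ (γ : ℝ → A 2) (T : ℝ), 0 < T ∧ IsGeodesic B γ ∧
        (∀ t, metric B (γ t) (deriv γ t) (deriv γ t) = 1) ∧ (∀ t, γ (t + T) = γ t) ∧
        T ^ 6 ≤ 128 * π ^ 2 * vol B) ∧
    (∀ B : Matrix (Fin 1 × Fin 3) (Fin 1 × Fin 3) ℝ, B.PosDef →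
      ∃ (γ : ℝ → A 1) (T : ℝ), 0 < T ∧ IsGeodesic B γ ∧
        (∀ t, metric B (γ t) (deriv γ t) (deriv γ t) = 1) ∧ (∀ t, γ (t + T) = γ t) ∧
        T ^ 3 ≤ 4 * π * vol B) :=
  ⟨fun _ hB => product hB, fun _ hB => three_sphere hB⟩

end Pool.Agent.Results.MP_3eff7f_gt.LeftInvariantProducts
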