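import Pool.Agent.FC640.LU.Main

/-!
# Short periodic geodesics of all left-invariant metrics on `SU(3)`

`M3`: complex `3 × 3` matrices; `IsPt`: the points of `SU(3)`; `metric B`: the left-invariant
metric on `SU(3)` whose value at the identity has the matrix `B` in the basis `i λ_a` of `su(3)`,
`λ_a` the Gell-Mann matrices; `IsGeodesic`: smooth curves which are critical for the energy under
all smooth variations with fixed endpoints; `vol B = √3 π⁵ √(det B)`.
-/

open Real Matrix
open scoped Matrix.Norms.Frobenius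

namespace Pool.Agent.Results.MP_3eff7f_gt.LeftInvariantSU3

open Pool.Agent.FC640.LU

/-- Every left-invariant metric on `SU(3)` has a unit speed periodic geodesic of period `T` with
`T⁸ ≤ 256 π³ vol` and `T ≤ 4 π diam`. -/
theorem result (B : Matrix (Fin 8) (Fin 8) ℝ) (hB : B.PosDef) :
    ∃ (γ : ℝ → M3) (T : ℝ), 0 < T ∧ IsGeodesic B γ ∧
      (∀ t, metric B (γ t) (deriv γ t) (deriv γ t) = 1) ∧ (∀ t, γ (t + T) = γ t) ∧
      T ^ 8 ≤ 256 * π ^ 3 * vol B ∧
      ∃ g : M3, IsPt g ∧ ∀ c : ℝ → M3, ContDiff ℝ 1 c → (∀ t, IsPt (c t)) → c 0 = 1 → c 1 = g →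
        T ≤ 4 * π * ∫ t in (0 : ℝ)..1, √(metric B (c t) (deriv c t) (deriv c t)) :=
  main hB

end Pool.Agent.Results.MP_3eff7f_gt.LeftInvariantSU3
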