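import Pool.Agent.TH15.MW.Round

set_option autoImplicit false

/-! # Short periodic geodesics on generalised warped products of spheres and circles -/

namespace Pool.Agent.Results.MP_3eff7f_gt.MultiplyWarpedProducts

open Real Set MeasureTheory Pool.Agent.H206R2.Rot Pool.Agent.TH15.MW
open scoped ContDiff

variable {N : ℕ}

lemma W_nonneg (k : ℕ) : 0 ≤ W k := by
  unfold W
  split_ifs
  · positivity
  · exact intervalIntegral.integral_nonneg Real.pi_pos.le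
      (fun t ht => pow_nonneg (Real.sin_nonneg_of_nonneg_of_le_pi ht.1 ht.2) _)

theorem exists_short (hN : 1 ≤ N) {k : Fin N → ℕ} {L : Fin N → ℝ} {f : Fin N → ℝ → ℝ}
    {a : Fin N → (Fin N → ℝ) → ℝ} (hM : IsMetric k L f a) :
    ∃ T : ℝ, 0 < T ∧ (∃ γ, IsGeod k L f a 1 γ ∧ ∀ t, γ (t + T) = γ t) ∧
      T ^ (∑ j, k j) * ∏ j, W (k j) ≤
        (2 * π) ^ (∑ j, k j) * ∫ r in box L, ∏ j, (a j r ^ k j * f j (r j) ^ (k j - 1)) ∧
      ∀ (r : Fin N → ℝ → ℝ) (u : ∀ j, ℝ → EuclideanSpace ℝ (Fin (k j))), IsPath 1 k r u →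
        (∀ j, pt (k j) (L j) (r j 0) (u j 0) = (0, 1)) →
        (∀ j, pt (k j) (L j) (r j 1) (u j 1) = (0, -1)) →
        T ≤ 2 * ∫ t in (0 : ℝ)..1, √(speedSq f a r u t) := by
  classical
  have : Nonempty (Fin N) := ⟨⟨0, hN⟩⟩
  choose p hp using fun j => hM.exists_min j
  choose ρ₁ υ₁ τ₁ h1 h1' using fun j => factor_short (hM.dim j) (hM.len j) (hM.profile j)
  choose ρ₂ υ₂ h2 using fun j => factor_meridian (hM.dim j) (hM.len j) (f j)
  have hμ : ∀ j, 0 < a j (p j) := fun j => hM.pos j _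
  have hτ : ∀ j, 0 < τ₁ j := fun j => (h1 j).pos
  have hh : ∀ j, 0 < hf (k j) (L j) := fun j => hf_pos (hM.len j)
  set m : Fin N → ℝ := fun j => min (a j (p j) * τ₁ j) (a j (p j) * (2 * hf (k j) (L j))) with hm
  obtain ⟨j₀, _, hj₀⟩ := Finset.exists_min_image Finset.univ m Finset.univ_nonempty
  have hmpos : 0 < m j₀ := by
    rw [hm]
    exact lt_min (mul_pos (hμ j₀) (hτ j₀)) (mul_pos (hμ j₀) (mul_pos two_pos (hh j₀)))
  refine ⟨m j₀, hmpos, ?_, ?_, ?_⟩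
  · rcases min_choice (a j₀ (p j₀) * τ₁ j₀) (a j₀ (p j₀) * (2 * hf (k j₀) (L j₀))) with h | h
    · have e : m j₀ = a j₀ (p j₀) * τ₁ j₀ := h
      rw [e]
      exact slice hM j₀ (p j₀) (hp j₀) (h1 j₀)
    · have e : m j₀ = a j₀ (p j₀) * (2 * hf (k j₀) (L j₀)) := h
      rw [e]
      exact slice hM j₀ (p j₀) (hp j₀) (h2 j₀)
  · have hv := hM.volume_ge (fun j => a j (p j)) hμ (fun j r => hp j r)
    have e1 : m j₀ ^ (∑ j, k j) * ∏ j, W (k j) = ∏ j, (m j₀ ^ k j * W (k j)) := by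
      rw [Finset.prod_mul_distrib, Finset.prod_pow_eq_pow_sum]
    have e2 : (2 * π) ^ (∑ j, k j) * ∏ j, (a j (p j) ^ k j * ∫ x in (0 : ℝ)..L j, f j x ^ (k j - 1))
        = ∏ j, (a j (p j) ^ k j * ((2 * π) ^ k j * ∫ x in (0 : ℝ)..L j, f j x ^ (k j - 1))) := by
      rw [← Finset.prod_pow_eq_pow_sum, ← Finset.prod_mul_distrib]
      exact Finset.prod_congr rfl (fun j _ => by ring)
    rw [e1]
    calc ∏ j, (m j₀ ^ k j * W (k j))
        ≤ ∏ j, (a j (p j) ^ k j * ((2 * π) ^ k j * ∫ x in (0 : ℝ)..L j, f j x ^ (k j - 1))) := by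
          refine Finset.prod_le_prod
            (fun j _ => mul_nonneg (pow_nonneg hmpos.le _) (W_nonneg _)) (fun j _ => ?_)
          have hle : m j₀ ≤ a j (p j) * τ₁ j := (hj₀ j (Finset.mem_univ j)).trans (min_le_left _ _)
          calc m j₀ ^ k j * W (k j) ≤ (a j (p j) * τ₁ j) ^ k j * W (k j) :=
                mul_le_mul_of_nonneg_right (pow_le_pow_left₀ hmpos.le hle _) (W_nonneg _)
            _ = a j (p j) ^ k j * (τ₁ j ^ k j * W (k j)) := by rw [mul_pow]; ring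
            _ ≤ _ := mul_le_mul_of_nonneg_left (h1' j) (pow_nonneg (hμ j).le _)
      _ = (2 * π) ^ (∑ j, k j) * ∏ j, (a j (p j) ^ k j * ∫ x in (0 : ℝ)..L j, f j x ^ (k j - 1)) :=
          e2.symm
      _ ≤ _ := mul_le_mul_of_nonneg_left hv (pow_nonneg (by positivity) _)
  · intro r u hr h0 h1
    have h3 := poles_dist hM j₀ (hμ j₀) (hp j₀) hr (h0 j₀) (h1 j₀)
    have h4 : m j₀ ≤ a j₀ (p j₀) * (2 * hf (k j₀) (L j₀)) := min_le_right _ _
    linarith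

/-- (1) Every metric `∑ a_j² g_j` on `X = ∏ X_j` has a unit speed periodic geodesic, of period `T`
with `T^n ∏ vol (S^(k j)) ≤ (2 π)^n vol X`, `n = dim X`, and `T ≤ 2 diam X`.
(2) On the product of round unit spheres and circles of length `2 π`, the periodic geodesics have
length at least `2 π`, hence the constant in (1) is optimal. -/
theorem result :
    (∀ (N : ℕ) (k : Fin N → ℕ) (L : Fin N → ℝ) (f : Fin N → ℝ → ℝ)
      (a : Fin N → (Fin N → ℝ) → ℝ), 1 ≤ N → IsMetric k L f a →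
      ∃ T : ℝ, 0 < T ∧ (∃ γ, IsGeod k L f a 1 γ ∧ ∀ t, γ (t + T) = γ t) ∧
        T ^ (∑ j, k j) * ∏ j, W (k j) ≤
          (2 * π) ^ (∑ j, k j) * ∫ r in box L, ∏ j, (a j r ^ k j * f j (r j) ^ (k j - 1)) ∧
        ∀ (r : Fin N → ℝ → ℝ) (u : ∀ j, ℝ → EuclideanSpace ℝ (Fin (k j))), IsPath 1 k r u →
          (∀ j, pt (k j) (L j) (r j 0) (u j 0) = (0, 1)) →
          (∀ j, pt (k j) (L j) (r j 1) (u j 1) = (0, -1)) →
          T ≤ 2 * ∫ t in (0 : ℝ)..1, √(speedSq f a r u t)) ∧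
    (∀ (N : ℕ) (k : Fin N → ℕ), (∀ j, 1 ≤ k j) →
      IsMetric k (rL k) (rf k) (fun _ _ => 1) ∧
      ∀ (v T : ℝ) (γ : ℝ → ∀ j, EuclideanSpace ℝ (Fin (k j)) × ℝ), 0 < v → 0 < T →
        IsGeod k (rL k) (rf k) (fun _ _ => 1) v γ → (∀ t, γ (t + T) = γ t) → 2 * π ≤ v * T) :=
  ⟨fun _ _ _ _ _ hN hM => exists_short hN hM,
   fun _ _ hk => ⟨round_metric hk, fun _ _ _ hv hT hγ hper => round_opt hv hT hγ hper⟩⟩

end Pool.Agent.Results.MP_3eff7f_gt.MultiplyWarpedProducts
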