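import Pool.Agent.TH432.TG.Main

/-!
# Sharp short periodic geodesics on closed toric Kähler manifolds

`IsFan ν K`: the primitive generators `ν i ∈ ℤ^n` of the rays `i ∈ F` and the set `K` of the sets of rays
spanning a cone form a complete smooth fan.  The closed toric manifold `M` of this fan, of real dimension
`2 n`, is the quotient of `Om K ⊆ ℂ^F` by the group `G` of the `(exp (a i))`, `a ∈ Lie ν`.
`IsPotential ν K κ Ψ`: `Ψ` is the potential on `Om K` of a Kähler metric `kg Ψ` on `M` invariant under the
compact torus `T^n`.  `IsGeodesic K Ψ 1 γ`: `γ` is a curve in `Om K` whose projection to `M` is a unit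
speed geodesic.  `vol Ψ σ`: the Riemannian volume of `M`, computed in the chart of the cone `σ`.
For every such metric there is a unit speed geodesic of `M` of period `T` with
`T ^ (2 n) ≤ π ^ n * n! * vol M`.  (For the Fubini-Study metric on `ℂP^n` with lines of area `π` all
geodesics have length `π` and the volume is `π ^ n / n!`, so that there is equality.)
-/

open Real Set MeasureTheory

namespace Pool.Agent.Results.MP_3eff7f_gt.ToricKaehler

open Pool.Agent.TH432.TG

theorem result :
    ∀ (F : Type) [Fintype F] [DecidableEq F] (n : ℕ) (ν : F → Fin n → ℤ) (K : Set (Finset F))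
      (κ : F → ℝ) (Ψ : (F → ℂ) → ℝ), 1 ≤ n → IsFan ν K → IsPotential ν K κ Ψ →
      ∃ (γ : ℝ → F → ℂ) (T : ℝ), 0 < T ∧ IsGeodesic K Ψ 1 γ ∧
        (∀ t, ∃ a ∈ Lie ν, γ (t + T) = fun i => Complex.exp (a i) * γ t i) ∧
        ∀ σ ∈ K, σ.card = n →
          ENNReal.ofReal (T ^ (2 * n)) ≤ ENNReal.ofReal (π ^ n * n.factorial) * vol Ψ σ :=
  fun _ _ _ _ _ _ _ _ hn hF h => main hn hF h

end Pool.Agent.Results.MP_3eff7f_gt.ToricKaehler
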